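import Pool.Agent.AKR.Defs

/-!
# AKR, module Nrm: the congruence for a prime `l` implies Fermat's congruence for the base `l` (helper19)

PROOF.  Let `x` be the class of `X` in `A = (ZMod n)[X] / (Φ_l)` (`AdjoinRoot (cyclotomic l (ZMod n))`); `x ^ l = 1`
(`Φ_l ∣ X ^ l - 1`).  Evaluate the divisibility at `y = x ^ a` (`y ^ l = 1`): `(x ^ a - 1) ^ n = (x ^ a) ^ n - 1` for all `a`.
Let `P = ∏_{a = 1}^{l - 1} (x ^ a - 1)`.  Then `P ^ n = ∏ (x ^ (a n) - 1) = P`, because `a ↦ a n % l` permutes `{1, …, l - 1}` (`n` is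
prime to `l`; e.g. the product over the units of `ZMod l` of `x ^ a.val - 1` and `Equiv.mulRight`; `x ^ k` only depends on
`k % l`).  And `P = (-1) ^ (l - 1) * l`: in `ℤ[X]` the polynomial `∏_{a = 1}^{l - 1} (X ^ a - 1) - (-1) ^ (l - 1) l` is divisible by
`Φ_l`, since it vanishes at `ζ = exp (2 π i / l)` (`Φ_l (1) = l`, `Polynomial.eval_one_cyclotomic_prime`,
`Polynomial.cyclotomic_eq_prod_X_sub_primitiveRoots`; `Polynomial.cyclotomic_eq_minpoly`, `minpoly.isIntegrallyClosed_dvd`); map it to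
`ZMod n`.  (Other way: in `A`, `∏_{a = 1}^{l - 1} (T - x ^ a) = 1 + T + … + T ^ (l - 1)`.)  If `l` is odd, `P = l`; if `l = 2`, `P = - 2` and
`n` is odd.  So in both cases `(l : A) ^ n = l`.  `ZMod n → A` is injective (`Φ_l` is monic of degree `≥ 1`: a constant divisible by
it is `0`), so `n ∣ l ^ n - l = l (l ^ (n - 1) - 1)`, and `n` is prime to `l`.
-/

open Polynomial

namespace AKR

private lemma nrm_dvd (l : ℕ) (hl : l.Prime) :
    cyclotomic l ℤ ∣ C ((-1) ^ (l - 1)) * ∏ k ∈ Finset.range (l - 1), (X ^ (k + 1) - 1) - C (l : ℤ) := by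
  have hl0 : l ≠ 0 := hl.ne_zero
  have hpos : 0 < l := hl.pos
  have hζ := Complex.isPrimitiveRoot_exp l hl0
  obtain ⟨ζ, hζ⟩ : ∃ ζ : ℂ, IsPrimitiveRoot ζ l := ⟨_, hζ⟩
  rw [cyclotomic_eq_minpoly hζ hpos]
  apply minpoly.isIntegrallyClosed_dvd (hζ.isIntegral hpos)
  have h1 : IsPrimitiveRoot ζ ((l - 1) + 1) := by
    rw [Nat.sub_add_cancel hpos]; exact hζ
  have h2 := h1.prod_pow_sub_one_eq_order
  have h3 : (((l - 1 : ℕ) : ℂ) + 1) = (l : ℂ) := by
    have : (((l - 1) + 1 : ℕ) : ℂ) = (l : ℂ) := by rw [Nat.sub_add_cancel hpos]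
    rw [← this]; push_cast; ring
  rw [h3] at h2
  simp only [map_sub, map_mul, map_prod, map_pow, aeval_X, map_one, map_neg, map_natCast]
  rw [h2, sub_self]

/-- multiplication by `n` permutes the exponents `1, …, l - 1` modulo `l` -/
private lemma prod_perm {A : Type*} [CommRing A] {n l : ℕ} (hl : l.Prime) (hc : n.Coprime l) (x : A)
    (hx : x ^ l = 1) :
    ∏ k ∈ Finset.range (l - 1), (x ^ ((k + 1) * n) - 1) = ∏ k ∈ Finset.range (l - 1), (x ^ (k + 1) - 1) := by
  have hpos : 0 < l := hl.pos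
  have hne : ∀ k, k < l - 1 → ((k + 1) * n) % l ≠ 0 := by
    intro k hk h0
    have h1 : l ∣ (k + 1) * n := Nat.dvd_of_mod_eq_zero h0
    rcases (Nat.Prime.dvd_mul hl).1 h1 with h2 | h2
    · have := Nat.le_of_dvd (by omega) h2
      omega
    · have := Nat.Coprime.eq_one_of_dvd hc.symm h2
      exact hl.one_lt.ne' this
  refine Finset.prod_bij (fun k _ => ((k + 1) * n) % l - 1) ?_ ?_ ?_ ?_
  · intro k hk
    rw [Finset.mem_range] at hk ⊢
    have h1 := Nat.mod_lt ((k + 1) * n) hpos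
    have h2 := hne k hk
    omega
  · intro a ha b hb hab
    rw [Finset.mem_range] at ha hb
    have h1 := hne a ha
    have h2 := hne b hb
    have h3 : ((a + 1) * n) % l = ((b + 1) * n) % l := by
      omega
    have h4 : (a + 1) ≡ (b + 1) [MOD l] := Nat.ModEq.cancel_right_of_coprime hc.symm h3
    have h5 : a + 1 = b + 1 := by
      have h6 : (a + 1) % l = (b + 1) % l := h4
      rwa [Nat.mod_eq_of_lt (by omega), Nat.mod_eq_of_lt (by omega)] at h6
    omega
  · intro b hb
    have hinj : Set.InjOn (fun k => ((k + 1) * n) % l - 1) (Finset.range (l - 1) : Set ℕ) := by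
      intro a ha b hb hab
      simp only [Finset.coe_range, Set.mem_Iio] at ha hb
      have h1 := hne a ha
      have h2 := hne b hb
      have h3 : ((a + 1) * n) % l = ((b + 1) * n) % l := by
        simp only at hab
        omega
      have h4 : (a + 1) ≡ (b + 1) [MOD l] := Nat.ModEq.cancel_right_of_coprime hc.symm h3
      have h5 : a + 1 = b + 1 := by
        have h6 : (a + 1) % l = (b + 1) % l := h4
        rwa [Nat.mod_eq_of_lt (by omega), Nat.mod_eq_of_lt (by omega)] at h6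
      omega
    have hmaps : Set.MapsTo (fun k => ((k + 1) * n) % l - 1) (Finset.range (l - 1) : Set ℕ)
        (Finset.range (l - 1) : Set ℕ) := by
      intro k hk
      simp only [Finset.coe_range, Set.mem_Iio] at hk ⊢
      have h1 := Nat.mod_lt ((k + 1) * n) hpos
      have h2 := hne k hk
      omega
    have hsurj := Finset.surjOn_of_injOn_of_card_le (fun k => ((k + 1) * n) % l - 1) hmaps hinj le_rfl
    obtain ⟨a, ha, hab⟩ := hsurj (Finset.mem_coe.2 hb)
    exact ⟨a, Finset.mem_coe.1 ha, hab⟩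
  · intro k hk
    rw [Finset.mem_range] at hk
    have h1 := hne k hk
    have h2 : ((k + 1) * n) % l - 1 + 1 = ((k + 1) * n) % l := by omega
    rw [h2, ← pow_eq_pow_mod _ hx]

theorem fermat_of_star {n l : ℕ} (hn : 1 ≤ n) (hl : l.Prime) (hc : n.Coprime l) (h : Star n l) :
    n ∣ l ^ (n - 1) - 1 := by
  rcases Nat.eq_or_lt_of_le hn with h1 | h1
  · rw [← h1]; exact one_dvd _
  have : Fact (1 < n) := ⟨h1⟩
  have : NeZero n := ⟨by omega⟩
  set Φ : (ZMod n)[X] := cyclotomic l (ZMod n) with hΦ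
  set x : AdjoinRoot Φ := AdjoinRoot.root Φ with hx
  have hmk : ∀ p : (ZMod n)[X], aeval x p = 0 ↔ Φ ∣ p := by
    intro p
    rw [hx, AdjoinRoot.aeval_eq, AdjoinRoot.mk_eq_zero]
  have hxl : x ^ l = 1 := by
    have h2 : aeval x (X ^ l - 1 : (ZMod n)[X]) = 0 := (hmk _).2 (cyclotomic.dvd_X_pow_sub_one l (ZMod n))
    simpa [sub_eq_zero] using h2
  have hstar : ∀ k : ℕ, (x ^ (k + 1) - 1) ^ n = x ^ ((k + 1) * n) - 1 := by
    intro k
    obtain ⟨q, hq⟩ := h
    have h2 := congrArg (aeval (x ^ (k + 1))) hq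
    have h3 : (x ^ (k + 1)) ^ l = 1 := by rw [← pow_mul, mul_comm, pow_mul, hxl, one_pow]
    simp only [map_sub, map_pow, map_mul, aeval_X, map_one, h3, sub_self, zero_mul] at h2
    rw [sub_eq_zero] at h2
    rw [h2, ← pow_mul]
  set P : AdjoinRoot Φ := ∏ k ∈ Finset.range (l - 1), (x ^ (k + 1) - 1) with hP
  have hPn : P ^ n = P := by
    rw [hP, ← Finset.prod_pow]
    rw [Finset.prod_congr rfl (fun k _ => hstar k)]
    exact prod_perm hl hc x hxl
  have hPl : (-1) ^ (l - 1) * P = (l : AdjoinRoot Φ) := by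
    have h2 := Polynomial.map_dvd (Int.castRingHom (ZMod n)) (nrm_dvd l hl)
    rw [map_cyclotomic] at h2
    have h3 := (hmk _).2 h2
    simp only [Polynomial.map_sub, Polynomial.map_mul, Polynomial.map_prod, Polynomial.map_pow, map_X,
      Polynomial.map_one, map_sub, map_mul, map_prod, map_pow, aeval_X, map_one,
      map_neg, map_natCast, Polynomial.map_neg, Polynomial.map_natCast] at h3
    rw [sub_eq_zero] at h3
    rw [← h3]
  have hsgn : ((-1 : AdjoinRoot Φ) ^ (l - 1)) ^ n = (-1) ^ (l - 1) := by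
    rcases hl.eq_two_or_odd' with h2 | h2
    · subst h2
      have hodd : Odd n := by
        rw [← Nat.coprime_two_right]; exact hc
      simp [hodd.neg_one_pow]
    · have h3 : Even (l - 1) := by
        obtain ⟨m, hm⟩ := h2
        exact ⟨m, by omega⟩
      rw [h3.neg_one_pow, one_pow]
  have hln : (l : AdjoinRoot Φ) ^ n = (l : AdjoinRoot Φ) := by
    rw [← hPl, mul_pow, hPn, hsgn]
  have hz : ((l : ZMod n) ^ n - l) = 0 := by
    by_contra hne
    have h2 : aeval x (C ((l : ZMod n) ^ n - l)) = 0 := by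
      rw [aeval_C]
      simp only [map_sub, map_pow, map_natCast]
      rw [hln, sub_self]
    have h3 := (hmk _).1 h2
    refine (cyclotomic.monic l (ZMod n)).not_dvd_of_natDegree_lt (C_ne_zero.2 hne) ?_ h3
    rw [natDegree_C, natDegree_cyclotomic]
    exact Nat.totient_pos.2 hl.pos
  have hle : l ≤ l ^ n := Nat.le_self_pow (by omega) l
  have hd : n ∣ l ^ n - l := by
    rw [← CharP.cast_eq_zero_iff (ZMod n) n, Nat.cast_sub hle]
    push_cast
    exact hz
  have hfac : l ^ n - l = l * (l ^ (n - 1) - 1) := by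
    rw [Nat.mul_sub, mul_one, ← pow_succ', Nat.sub_add_cancel hn]
  rw [hfac] at hd
  exact hc.dvd_of_dvd_mul_left hd

end AKR
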