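import Pool.Agent.AKR.Defs

/-!
# AKR, module Cnt: numbers whose large prime factors have a small order (helper19)

PROOFS.
* `card_primes`: group `T` by `d`: for a given `d ≤ H` let `T_d` be the set of the `p ∈ T` with `p ∣ l ^ d - 1`; the product of the
  different primes in `T_d` divides `l ^ d - 1 > 0` (`Finset.prod_primes_dvd`), so `y ^ (card T_d) ≤ l ^ d` and
  `card T_d * log y ≤ d * log l ≤ H * log l`; sum over `1 ≤ d ≤ H`.
* `rough_count`: let `P` be the finite set of the primes `p ≤ N` with `y < p` and `p ∣ l ^ d - 1` for some `1 ≤ d ≤ H`; by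
  `card_primes` `card P ≤ H ^ 2 log l / log y`.  For `n = s t` in the set, `t ≤ N < y ^ (K + 1)` and all prime factors of `t` are `> y`, so
  `t` has at most `K` prime factors with multiplicity (`Nat.primeFactorsList`, its product is `t`), all in `P`: `t` is the product of the
  values of a function `Fin K → Option P` (`none ↦ 1`), at most `(card P + 1) ^ K` possibilities; `s` has at most `z` possibilities
  (`1 ≤ s ≤ z`), and `n = s t`.
-/

namespace AKR

private theorem exists_prods (P : Finset ℕ) (K : ℕ) : ∃ A : Finset ℕ,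
    A.card ≤ (P.card + 1) ^ K ∧
    ∀ L : List ℕ, L.length ≤ K → (∀ p ∈ L, p ∈ P) → L.prod ∈ A := by
  induction K with
  | zero =>
    refine ⟨{1}, by simp, ?_⟩
    intro L hL _
    have h : L = [] := List.length_eq_zero_iff.1 (Nat.le_zero.1 hL)
    subst h
    simp
  | succ K ih =>
    obtain ⟨A, h1, h2⟩ := ih
    refine ⟨(insert 1 P ×ˢ A).image (fun q => q.1 * q.2), ?_, ?_⟩
    · refine Finset.card_image_le.trans ?_
      rw [Finset.card_product, pow_succ']
      exact Nat.mul_le_mul (Finset.card_insert_le _ _) h1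
    · intro L hL hP
      cases L with
      | nil =>
        rw [List.prod_nil]
        have h3 : (1 : ℕ) ∈ A := by simpa using h2 [] (by simp) (by simp)
        exact Finset.mem_image.2 ⟨(1, 1), Finset.mem_product.2
          ⟨Finset.mem_insert_self _ _, h3⟩, by simp⟩
      | cons a L =>
        rw [List.prod_cons]
        exact Finset.mem_image.2 ⟨(a, L.prod), Finset.mem_product.2
          ⟨Finset.mem_insert_of_mem (hP a (by simp)), h2 L (by simpa using hL)
            (fun p hp => hP p (by simp [hp]))⟩, rfl⟩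

private theorem pow_len_le (y : ℕ) (L : List ℕ) (h : ∀ p ∈ L, y ≤ p) :
    y ^ L.length ≤ L.prod := by
  induction L with
  | nil => simp
  | cons a L ih =>
    rw [List.length_cons, List.prod_cons, pow_succ']
    exact Nat.mul_le_mul (h a (by simp)) (ih (fun p hp => h p (by simp [hp])))

private theorem card_one {l y d : ℕ} (hl : 2 ≤ l) (hd : 1 ≤ d) (T : Finset ℕ)
    (hT : ∀ p ∈ T, p.Prime ∧ y < p ∧ p ∣ l ^ d - 1) :
    y ^ T.card ≤ l ^ d := by
  have h1 : ∏ p ∈ T, p ∣ l ^ d - 1 :=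
    Finset.prod_primes_dvd _ (fun p hp => (hT p hp).1.prime) (fun p hp => (hT p hp).2.2)
  have h2 : 0 < l ^ d - 1 := by
    have h3 : 2 ^ 1 ≤ l ^ d := (Nat.pow_le_pow_right (by norm_num) hd).trans
      (Nat.pow_le_pow_left hl d)
    omega
  have h3 := Nat.le_of_dvd h2 h1
  have h4 : y ^ T.card ≤ ∏ p ∈ T, p := by
    refine Finset.pow_card_le_prod T (fun p => p) y ?_
    intro p hp
    exact (hT p hp).2.1.le
  omega

theorem card_primes {l y H : ℕ} (hl : 2 ≤ l) (hy : 2 ≤ y) (T : Finset ℕ)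
    (hT : ∀ p ∈ T, p.Prime ∧ y < p ∧ ∃ d, 1 ≤ d ∧ d ≤ H ∧ p ∣ l ^ d - 1) :
    (T.card : ℝ) ≤ (H : ℝ) ^ 2 * Real.log l / Real.log y := by
  classical
  have hly : 0 < Real.log y := Real.log_pos (by exact_mod_cast hy)
  have hll : 0 ≤ Real.log l := Real.log_nonneg (by
    have h1 : (2 : ℝ) ≤ l := by exact_mod_cast hl
    linarith)
  rw [le_div_iff₀ hly]
  have h1 : T ⊆ (Finset.Icc 1 H).biUnion (fun d => T.filter (fun p => p ∣ l ^ d - 1)) := by
    intro p hp
    obtain ⟨_, _, d, hd1, hd2, hd3⟩ := hT p hp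
    exact Finset.mem_biUnion.2 ⟨d, Finset.mem_Icc.2 ⟨hd1, hd2⟩, Finset.mem_filter.2 ⟨hp, hd3⟩⟩
  have h2 := (Finset.card_le_card h1).trans Finset.card_biUnion_le
  have h3 : (T.card : ℝ) ≤
      ∑ d ∈ Finset.Icc 1 H, ((T.filter (fun p => p ∣ l ^ d - 1)).card : ℝ) := by
    exact_mod_cast h2
  have h4 : ∀ d ∈ Finset.Icc 1 H,
      ((T.filter (fun p => p ∣ l ^ d - 1)).card : ℝ) * Real.log y ≤ H * Real.log l := by
    intro d hd
    rw [Finset.mem_Icc] at hd
    have h5 := card_one hl hd.1 (T.filter (fun p => p ∣ l ^ d - 1)) (y := y) (fun p hp => by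
      rw [Finset.mem_filter] at hp
      exact ⟨(hT p hp.1).1, (hT p hp.1).2.1, hp.2⟩)
    have hy0 : (0 : ℝ) < y := by
      have : 0 < y := by omega
      exact_mod_cast this
    have hl0 : (0 : ℝ) < l := by
      have : 0 < l := by omega
      exact_mod_cast this
    have h6 : ((y : ℝ) ^ (T.filter (fun p => p ∣ l ^ d - 1)).card) ≤ (l : ℝ) ^ d := by
      exact_mod_cast h5
    have h7 := Real.log_le_log (pow_pos hy0 _) h6
    rw [Real.log_pow, Real.log_pow] at h7
    refine h7.trans (mul_le_mul_of_nonneg_right ?_ hll)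
    exact_mod_cast hd.2
  calc (T.card : ℝ) * Real.log y
      ≤ (∑ d ∈ Finset.Icc 1 H, ((T.filter (fun p => p ∣ l ^ d - 1)).card : ℝ)) * Real.log y :=
        mul_le_mul_of_nonneg_right h3 hly.le
    _ = ∑ d ∈ Finset.Icc 1 H, ((T.filter (fun p => p ∣ l ^ d - 1)).card : ℝ) * Real.log y := by
        rw [Finset.sum_mul]
    _ ≤ ∑ _d ∈ Finset.Icc 1 H, H * Real.log l := Finset.sum_le_sum h4
    _ = (H : ℝ) ^ 2 * Real.log l := by
        rw [Finset.sum_const, Nat.card_Icc, nsmul_eq_mul]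
        push_cast [Nat.add_sub_cancel]
        ring

theorem rough_count {l y H K N : ℕ} {z : ℝ} (hl : 2 ≤ l) (hy : 2 ≤ y) (hz : 1 ≤ z)
    (hK : N < y ^ (K + 1)) (S : Finset ℕ)
    (hS : ∀ n ∈ S, 1 ≤ n ∧ n ≤ N ∧ ∃ s t : ℕ, n = s * t ∧ (s : ℝ) ≤ z ∧
      ∀ p : ℕ, p.Prime → p ∣ t → y < p ∧ ∃ d, 1 ≤ d ∧ d ≤ H ∧ p ∣ l ^ d - 1) :
    (S.card : ℝ) ≤ z * ((H : ℝ) ^ 2 * Real.log l / Real.log y + 1) ^ K := by
  classical
  obtain ⟨P, hP⟩ : ∃ P : Finset ℕ, P = (Finset.range (N + 1)).filter (fun p =>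
      p.Prime ∧ y < p ∧ ∃ d, 1 ≤ d ∧ d ≤ H ∧ p ∣ l ^ d - 1) := ⟨_, rfl⟩
  have hPc : (P.card : ℝ) ≤ (H : ℝ) ^ 2 * Real.log l / Real.log y := by
    refine card_primes hl hy P ?_
    intro p hp
    rw [hP, Finset.mem_filter] at hp
    exact hp.2
  obtain ⟨A, hA1, hA2⟩ := exists_prods P K
  have hS2 : S ⊆ (Finset.Icc 1 ⌊z⌋₊ ×ˢ A).image (fun q => q.1 * q.2) := by
    intro n hn
    obtain ⟨hn1, hn2, s, t, rfl, hsz, hp⟩ := hS n hn
    have hs0 : s ≠ 0 := by
      rintro rfl
      simp at hn1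
    have ht0 : t ≠ 0 := by
      rintro rfl
      simp at hn1
    have htN : t ≤ N := (Nat.le_mul_of_pos_left t (Nat.pos_of_ne_zero hs0)).trans hn2
    have hL := Nat.prod_primeFactorsList ht0
    have h1 : ∀ p ∈ t.primeFactorsList, p.Prime ∧ p ∣ t := fun p hp =>
      ⟨Nat.prime_of_mem_primeFactorsList hp, Nat.dvd_of_mem_primeFactorsList hp⟩
    have h2 : y ^ t.primeFactorsList.length ≤ t := by
      have h3 := pow_len_le y t.primeFactorsList (fun p hp' =>
        (hp p (h1 p hp').1 (h1 p hp').2).1.le)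
      rwa [hL] at h3
    have h3 : t.primeFactorsList.length ≤ K := by
      have h4 : y ^ t.primeFactorsList.length < y ^ (K + 1) := (h2.trans htN).trans_lt hK
      have h5 := (Nat.pow_lt_pow_iff_right (by omega : 1 < y)).1 h4
      omega
    have h4 : t ∈ A := by
      have h5 := hA2 t.primeFactorsList h3 (fun p hp' => by
        rw [hP, Finset.mem_filter, Finset.mem_range]
        have h6 := Nat.le_of_dvd (Nat.pos_of_ne_zero ht0) (h1 p hp').2
        exact ⟨by omega, (h1 p hp').1, hp p (h1 p hp').1 (h1 p hp').2⟩)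
      rwa [hL] at h5
    refine Finset.mem_image.2 ⟨(s, t), Finset.mem_product.2 ⟨Finset.mem_Icc.2
      ⟨Nat.pos_of_ne_zero hs0, ?_⟩, h4⟩, rfl⟩
    exact Nat.le_floor hsz
  have hc := (Finset.card_le_card hS2).trans Finset.card_image_le
  rw [Finset.card_product, Nat.card_Icc, Nat.add_sub_cancel] at hc
  have hc2 : (S.card : ℝ) ≤ (⌊z⌋₊ : ℝ) * (A.card : ℝ) := by exact_mod_cast hc
  have hA3 : (A.card : ℝ) ≤ ((P.card : ℝ) + 1) ^ K := by exact_mod_cast hA1
  have hz0 : (0 : ℝ) ≤ z := by linarith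
  calc (S.card : ℝ) ≤ (⌊z⌋₊ : ℝ) * (A.card : ℝ) := hc2
    _ ≤ z * (A.card : ℝ) := mul_le_mul_of_nonneg_right (Nat.floor_le hz0) (Nat.cast_nonneg _)
    _ ≤ z * ((P.card : ℝ) + 1) ^ K := mul_le_mul_of_nonneg_left hA3 hz0
    _ ≤ z * ((H : ℝ) ^ 2 * Real.log l / Real.log y + 1) ^ K := by
        refine mul_le_mul_of_nonneg_left (pow_le_pow_left₀ (by positivity) (by linarith) K) hz0

end AKR
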