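import Pool.Agent.AKR.Defs

/-!
# AKR, module Gcd: few numbers `p m` have `gcd (p - 1, m - 1) > H` (helper19)

PROOF.  For such an `n` let `d = gcd (p - 1, m - 1) > H`, `p = 1 + a d`, `m = 1 + b d`, `a, b ≥ 1`: `n` is determined by `(d, a, b)`,
and `a b d ^ 2 < n ≤ N`.  For each `d` the number of the pairs `(a, b)` with `a b ≤ N / d ^ 2` is at most
`∑_{a ≤ N} N / (d ^ 2 a) ≤ (N / d ^ 2) (1 + log N)` (`harmonic_le_one_add_log`), and `∑_{d > H} 1 / d ^ 2 ≤ 1 / H` (only `d ≤ N` matters;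
telescoping `1 / d ^ 2 ≤ 1 / (d - 1) - 1 / d`).
-/

namespace AKR

theorem gcd_count (N H : ℕ) (hN : 1 ≤ N) (hH : 1 ≤ H) (S : Finset ℕ)
    (hS : ∀ n ∈ S, n ≤ N ∧ ∃ p m : ℕ, n = p * m ∧ 2 ≤ p ∧ 2 ≤ m ∧
      H < Nat.gcd (p - 1) (m - 1)) :
    (S.card : ℝ) ≤ N * (1 + Real.log N) / H := by
  classical
  have hH0 : (0 : ℝ) < H := by exact_mod_cast hH
  set B : Finset ℕ := (Finset.Ioc H N).biUnion fun d => (Finset.range N).biUnion fun a =>
    (Finset.Icc 1 (N / (d ^ 2 * (a + 1)))).image fun b => (1 + d * (a + 1)) * (1 + d * b) with hB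
  have hsub : S ⊆ B := by
    intro n hn
    obtain ⟨hnN, p, m, hpm, hp, hm, hg⟩ := hS n hn
    obtain ⟨a, ha⟩ := Nat.gcd_dvd_left (p - 1) (m - 1)
    obtain ⟨b, hb⟩ := Nat.gcd_dvd_right (p - 1) (m - 1)
    set d := Nat.gcd (p - 1) (m - 1) with hd
    have hd0 : 0 < d := by omega
    have ha0 : 0 < a := by
      rcases Nat.eq_zero_or_pos a with h | h
      · rw [h, mul_zero] at ha
        omega
      · exact h
    have hb0 : 0 < b := by
      rcases Nat.eq_zero_or_pos b with h | h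
      · rw [h, mul_zero] at hb
        omega
      · exact h
    have hp1 : p = 1 + d * a := by omega
    have hm1 : m = 1 + d * b := by omega
    have hn1 : n = (1 + d * a) * (1 + d * b) := by rw [hpm, hp1, hm1]
    have hprod : b * (d ^ 2 * a) ≤ N := by
      have h1 : b * (d ^ 2 * a) ≤ (1 + d * a) * (1 + d * b) := by
        have : (1 + d * a) * (1 + d * b) = 1 + d * a + d * b + b * (d ^ 2 * a) := by ring
        omega
      omega
    have haN : a ≤ N := by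
      have h1 : a ≤ d * a := Nat.le_mul_of_pos_left a hd0
      have h2 : 1 + d * a ≤ (1 + d * a) * (1 + d * b) := Nat.le_mul_of_pos_right _ (by omega)
      omega
    have hdN : d ≤ N := by
      have h1 : d ≤ d * a := Nat.le_mul_of_pos_right d ha0
      have h2 : 1 + d * a ≤ (1 + d * a) * (1 + d * b) := Nat.le_mul_of_pos_right _ (by omega)
      omega
    rw [hB]
    refine Finset.mem_biUnion.2 ⟨d, Finset.mem_Ioc.2 ⟨hg, hdN⟩, ?_⟩
    refine Finset.mem_biUnion.2 ⟨a - 1, Finset.mem_range.2 (by omega), ?_⟩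
    have ha1 : a - 1 + 1 = a := by omega
    refine Finset.mem_image.2 ⟨b, Finset.mem_Icc.2 ⟨hb0, ?_⟩, ?_⟩
    · rw [ha1]
      exact (Nat.le_div_iff_mul_le (by positivity)).2 hprod
    · rw [ha1]
      exact hn1.symm
  have hcard : S.card ≤ ∑ d ∈ Finset.Ioc H N, ∑ a ∈ Finset.range N, N / (d ^ 2 * (a + 1)) := by
    refine (Finset.card_le_card hsub).trans (Finset.card_biUnion_le.trans ?_)
    refine Finset.sum_le_sum fun d _ => Finset.card_biUnion_le.trans ?_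
    refine Finset.sum_le_sum fun a _ => Finset.card_image_le.trans ?_
    rw [Nat.card_Icc, Nat.add_sub_cancel]
  have h1 : (S.card : ℝ) ≤ ∑ d ∈ Finset.Ioc H N, ∑ a ∈ Finset.range N,
      (N : ℝ) * ((d : ℝ) ^ 2)⁻¹ * ((a : ℝ) + 1)⁻¹ := by
    refine (Nat.cast_le.2 hcard).trans ?_
    push_cast
    refine Finset.sum_le_sum fun d _ => Finset.sum_le_sum fun a _ => ?_
    refine (Nat.cast_div_le).trans (le_of_eq ?_)
    push_cast
    rw [div_eq_mul_inv, mul_inv]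
    ring
  have hh : ∑ a ∈ Finset.range N, ((a : ℝ) + 1)⁻¹ ≤ 1 + Real.log N := by
    have h2 := harmonic_le_one_add_log N
    have h3 : ((harmonic N : ℚ) : ℝ) = ∑ a ∈ Finset.range N, ((a : ℝ) + 1)⁻¹ := by
      unfold harmonic
      push_cast
      rfl
    rw [h3] at h2
    exact h2
  have hlog : 0 ≤ 1 + Real.log N := by
    have : 0 ≤ Real.log N := Real.log_nonneg (by exact_mod_cast hN)
    linarith
  have hsq : ∑ d ∈ Finset.Ioc H N, ((d : ℝ) ^ 2)⁻¹ ≤ (H : ℝ)⁻¹ := by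
    rcases le_total H N with h | h
    · refine (sum_Ioc_inv_sq_le_sub (by omega) h).trans ?_
      have : 0 ≤ (N : ℝ)⁻¹ := by positivity
      linarith
    · rw [Finset.Ioc_eq_empty_of_le h, Finset.sum_empty]
      positivity
  have h2 : ∑ d ∈ Finset.Ioc H N, ∑ a ∈ Finset.range N,
      (N : ℝ) * ((d : ℝ) ^ 2)⁻¹ * ((a : ℝ) + 1)⁻¹ =
      N * (∑ d ∈ Finset.Ioc H N, ((d : ℝ) ^ 2)⁻¹) * ∑ a ∈ Finset.range N, ((a : ℝ) + 1)⁻¹ := by
    generalize hT : ∑ a ∈ Finset.range N, ((a : ℝ) + 1)⁻¹ = T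
    rw [Finset.mul_sum, Finset.sum_mul]
    refine Finset.sum_congr rfl fun d _ => ?_
    rw [← hT, Finset.mul_sum]
  rw [h2] at h1
  refine h1.trans ?_
  have h3 : 0 ≤ ∑ a ∈ Finset.range N, ((a : ℝ) + 1)⁻¹ := Finset.sum_nonneg fun a _ => by positivity
  calc N * (∑ d ∈ Finset.Ioc H N, ((d : ℝ) ^ 2)⁻¹) * ∑ a ∈ Finset.range N, ((a : ℝ) + 1)⁻¹
      ≤ N * (H : ℝ)⁻¹ * (1 + Real.log N) := by gcongr
    _ = N * (1 + Real.log N) / H := by rw [div_eq_mul_inv]; ring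

end AKR
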