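import Pool.Agent.AKR.Smo
import Pool.Agent.AKR.Gcd
import Pool.Agent.AKR.Cnt

/-!
# AKR, module Comb: the number of bad numbers (helper19)

PROOF.  `C` as in `smooth_count`.  Let `n ≤ N` be bad, with the base `l`, `l ^ 2 < 8 n ≤ 8 N`.  Three cases.
(1) `n` has a divisor `s > z` without prime factors `> y`: `smooth_count` (`Nat.mem_smoothNumbers'`).
(2) `n = p m`, `2 ≤ p`, `2 ≤ m`, `H < gcd (p - 1, m - 1)`: `gcd_count`.
(3) Otherwise write `n = s t`, `s` the part of `n` with the prime factors `≤ y` (`s ∈ smoothNumbers (y + 1)`), `t` without prime factors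
`≤ y` (`Nat.smoothNumbers` API: `Nat.eq_prod_primes_mul_sq…`, or `Nat.factorization` filtered, or `∏ p ∈ n.primeFactors.filter (· ≤ y),
p ^ n.factorization p`); `s ≤ z` by not (1).  For a prime `p ∣ t`: `y < p`, `n = p m`, `m ≥ 2` since `n` is not prime and
`n ≠ 0`.  Let `d` be the order of `l` modulo `p` (`p ∤ l`, `orderOf (l : ZMod p)`, positive); `d ∣ p - 1` (`ZMod.orderOf_dvd_card_sub_one`)
and `d ∣ n - 1 = (p - 1) m + (m - 1)`, so `d ∣ m - 1`, `d ∣ gcd (p - 1, m - 1)`, which is positive and `≤ H` by not (2); so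
`1 ≤ d ≤ H` and `p ∣ l ^ d - 1`.  So `n` is in the set of `rough_count` for `l`; the number of the `l` with `2 ≤ l`, `l ^ 2 < 8 N` is at
most `√(8 N)`, and `log l ≤ log (8 N)`.
-/

namespace AKR

private theorem dvd_pow_sub_one_iff {p l k : ℕ} (hl : 1 ≤ l) :
    p ∣ l ^ k - 1 ↔ (l : ZMod p) ^ k = 1 := by
  have h1 : 1 ≤ l ^ k := Nat.one_le_pow _ _ hl
  rw [← ZMod.natCast_eq_zero_iff, Nat.cast_sub h1, Nat.cast_pow, Nat.cast_one, sub_eq_zero]

private theorem split (y : ℕ) (n : ℕ) (hn : 1 ≤ n) : ∃ s t : ℕ, n = s * t ∧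
    s ∈ Nat.smoothNumbers (y + 1) ∧ ∀ p : ℕ, p.Prime → p ∣ t → y < p := by
  induction n using Nat.strong_induction_on with
  | _ n ih =>
    by_cases h : ∃ p : ℕ, p.Prime ∧ p ∣ n ∧ p ≤ y
    · obtain ⟨p, hp, ⟨m, rfl⟩, hpy⟩ := h
      have hm : 1 ≤ m := by
        rcases Nat.eq_zero_or_pos m with h0 | h0
        · subst h0
          simp at hn
        · exact h0
      have hlt : m < p * m := by
        have := hp.two_le
        nlinarith
      obtain ⟨s, t, h1, h2, h3⟩ := ih m hlt hm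
      refine ⟨p * s, t, by rw [h1, mul_assoc], ?_, h3⟩
      refine Nat.mul_mem_smoothNumbers ?_ h2
      rw [Nat.mem_smoothNumbers']
      intro q hq hqp
      rw [(Nat.prime_dvd_prime_iff_eq hq hp).1 hqp]
      omega
    · push Not at h
      refine ⟨1, n, (one_mul n).symm, ?_, fun p hp hpn => h p hp hpn⟩
      rw [Nat.mem_smoothNumbers']
      intro q hq hq1
      exact absurd hq1 (by
        intro h1
        exact hq.one_lt.ne' (Nat.dvd_one.1 h1))

private theorem key {y H n l : ℕ} {z : ℝ} (hn2 : 2 ≤ n) (hnp : ¬ n.Prime) (hl : l.Prime)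
    (hc : l.Coprime n) (hd : n ∣ l ^ (n - 1) - 1)
    (h1 : ¬ ∃ s : ℕ, s ∣ n ∧ s ∈ Nat.smoothNumbers (y + 1) ∧ z < (s : ℝ))
    (h2 : ¬ ∃ p m : ℕ, n = p * m ∧ 2 ≤ p ∧ 2 ≤ m ∧ H < Nat.gcd (p - 1) (m - 1)) :
    ∃ s t : ℕ, n = s * t ∧ (s : ℝ) ≤ z ∧
      ∀ p : ℕ, p.Prime → p ∣ t → y < p ∧ ∃ d, 1 ≤ d ∧ d ≤ H ∧ p ∣ l ^ d - 1 := by
  obtain ⟨s, t, hst, hs, ht⟩ := split y n (by omega)
  refine ⟨s, t, hst, ?_, ?_⟩
  · by_contra h
    exact h1 ⟨s, ⟨t, hst⟩, hs, not_le.1 h⟩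
  · intro p hp hpt
    refine ⟨ht p hp hpt, ?_⟩
    have hpn : p ∣ n := by
      rw [hst]
      exact Dvd.dvd.mul_left hpt s
    obtain ⟨m, hm⟩ := hpn
    have hp2 := hp.two_le
    have hm2 : 2 ≤ m := by
      rcases Nat.lt_or_ge m 2 with h | h
      · exfalso
        have hm' : m = 0 ∨ m = 1 := by omega
        rcases hm' with rfl | rfl
        · simp at hm
          omega
        · rw [mul_one] at hm
          rw [hm] at hnp
          exact hnp hp
      · exact h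
    have : Fact p.Prime := ⟨hp⟩
    have hl1 : 1 ≤ l := hl.one_lt.le
    have hlp : (l : ZMod p) ≠ 0 := by
      intro h0
      rw [ZMod.natCast_eq_zero_iff] at h0
      have h3 : p ∣ Nat.gcd l n := Nat.dvd_gcd h0 ⟨m, hm⟩
      rw [hc.gcd_eq_one] at h3
      exact hp.one_lt.ne' (Nat.dvd_one.1 h3)
    have ho1 : orderOf (l : ZMod p) ∣ p - 1 :=
      orderOf_dvd_of_pow_eq_one (ZMod.pow_card_sub_one_eq_one hlp)
    have ho2 : orderOf (l : ZMod p) ∣ n - 1 := by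
      apply orderOf_dvd_of_pow_eq_one
      rw [← dvd_pow_sub_one_iff hl1]
      exact (Dvd.intro m hm.symm).trans hd
    have he : n - 1 = (p - 1) * m + (m - 1) := by
      rw [hm, Nat.sub_mul]
      have : m ≤ p * m := Nat.le_mul_of_pos_left m (by omega)
      omega
    have ho3 : orderOf (l : ZMod p) ∣ m - 1 := by
      rw [he] at ho2
      exact (Nat.dvd_add_right (Dvd.dvd.mul_right ho1 m)).1 ho2
    have hg : orderOf (l : ZMod p) ∣ Nat.gcd (p - 1) (m - 1) := Nat.dvd_gcd ho1 ho3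
    have hgpos : 0 < Nat.gcd (p - 1) (m - 1) := Nat.gcd_pos_of_pos_left _ (by omega)
    have hgH : Nat.gcd (p - 1) (m - 1) ≤ H := by
      by_contra h
      exact h2 ⟨p, m, hm, hp2, hm2, not_le.1 h⟩
    refine ⟨orderOf (l : ZMod p), ?_, (Nat.le_of_dvd hgpos hg).trans hgH, ?_⟩
    · exact Nat.pos_of_dvd_of_pos hg hgpos
    · rw [dvd_pow_sub_one_iff hl1]
      exact pow_orderOf_eq_one _

theorem bad_count : ∃ C : ℝ, 0 < C ∧ ∀ (N y H K : ℕ) (z σ : ℝ), 1 ≤ N → 3 ≤ y → 1 ≤ H → 1 ≤ z →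
    0 < σ → σ ≤ 1 / 4 → N < y ^ (K + 1) → ∀ S : Finset ℕ, (∀ n ∈ S, n ≤ N ∧ Bad n) →
    (S.card : ℝ) ≤ N * z ^ (-σ) * Real.exp (C * (y : ℝ) ^ σ * (1 + Real.log (Real.log y))) +
      N * (1 + Real.log N) / H +
      Real.sqrt (8 * N) * (z * ((H : ℝ) ^ 2 * Real.log (8 * N) / Real.log y + 1) ^ K) := by
  classical
  obtain ⟨C, hC, hsm⟩ := smooth_count
  refine ⟨C, hC, ?_⟩
  intro N y H K z σ hN hy hH hz hσ hσ' hK S hS
  set P1 : ℕ → Prop := fun n => ∃ s : ℕ, s ∣ n ∧ s ∈ Nat.smoothNumbers (y + 1) ∧ z < (s : ℝ)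
    with hP1
  set P2 : ℕ → Prop := fun n => ∃ p m : ℕ, n = p * m ∧ 2 ≤ p ∧ 2 ≤ m ∧
    H < Nat.gcd (p - 1) (m - 1) with hP2
  have hc1 : ((S.filter P1).card : ℝ) ≤
      N * z ^ (-σ) * Real.exp (C * (y : ℝ) ^ σ * (1 + Real.log (Real.log y))) := by
    apply hsm N y z σ hy (by linarith) hσ hσ'
    intro n hn
    rw [Finset.mem_filter] at hn
    obtain ⟨h1, h2, -, -⟩ := hS n hn.1
    exact ⟨by omega, h1, hn.2⟩
  have hc2 : ((S.filter P2).card : ℝ) ≤ N * (1 + Real.log N) / H := by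
    apply gcd_count N H hN hH
    intro n hn
    rw [Finset.mem_filter] at hn
    exact ⟨(hS n hn.1).1, hn.2⟩
  set S3 : Finset ℕ := S.filter fun n => ¬ P1 n ∧ ¬ P2 n with hS3
  set L : Finset ℕ := Finset.Icc 2 (Nat.sqrt (8 * N)) with hL
  set Q : ℕ → ℕ → Prop := fun l n => l.Prime ∧ l.Coprime n ∧ n ∣ l ^ (n - 1) - 1 with hQ
  have hN0 : (0 : ℝ) < 8 * N := by
    have : (1 : ℝ) ≤ N := by exact_mod_cast hN
    linarith
  have hlogy : 0 < Real.log y := by
    apply Real.log_pos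
    have : (3 : ℝ) ≤ y := by exact_mod_cast hy
    linarith
  have hlogN : 0 ≤ Real.log (8 * N) := by
    apply Real.log_nonneg
    have : (1 : ℝ) ≤ N := by exact_mod_cast hN
    linarith
  have hc3l : ∀ l ∈ L, (((S3.filter (Q l)).card : ℕ) : ℝ) ≤
      z * ((H : ℝ) ^ 2 * Real.log (8 * N) / Real.log y + 1) ^ K := by
    intro l hl
    rw [hL, Finset.mem_Icc] at hl
    have h1 := rough_count (l := l) (y := y) (H := H) (K := K) (N := N) (z := z) hl.1
      (by omega) hz hK (S3.filter (Q l)) (by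
        intro n hn
        rw [Finset.mem_filter, hS3, Finset.mem_filter] at hn
        obtain ⟨⟨hnS, hn1, hn2⟩, hl1, hl2, hl3⟩ := hn
        obtain ⟨h1, h2, h3, -⟩ := hS n hnS
        exact ⟨by omega, h1, key h2 h3 hl1 hl2 hl3 hn1 hn2⟩)
    refine h1.trans ?_
    have hl0 : (0 : ℝ) < l := by
      have := hl.1
      exact_mod_cast (by omega : 0 < l)
    have hle : (l : ℝ) ≤ 8 * N := by
      have h3 : Nat.sqrt (8 * N) ≤ 8 * N := Nat.sqrt_le_self _
      have h4 : l ≤ 8 * N := hl.2.trans h3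
      exact_mod_cast h4
    have hlog : Real.log l ≤ Real.log (8 * N) := Real.log_le_log hl0 hle
    have hlog0 : 0 ≤ Real.log l := Real.log_natCast_nonneg l
    have hb : (H : ℝ) ^ 2 * Real.log l / Real.log y + 1 ≤
        (H : ℝ) ^ 2 * Real.log (8 * N) / Real.log y + 1 := by
      gcongr
    have hb0 : 0 ≤ (H : ℝ) ^ 2 * Real.log l / Real.log y + 1 := by positivity
    have hz0 : 0 ≤ z := by linarith
    exact mul_le_mul_of_nonneg_left (pow_le_pow_left₀ hb0 hb K) hz0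
  have hsub : S3 ⊆ L.biUnion fun l => S3.filter (Q l) := by
    intro n hn
    have hnS : n ∈ S := (Finset.mem_filter.1 hn).1
    obtain ⟨h1, h2, h3, l, hl1, hl2, hl3, hl4⟩ := hS n hnS
    rw [Finset.mem_biUnion]
    refine ⟨l, ?_, Finset.mem_filter.2 ⟨hn, hl1, hl2, hl4⟩⟩
    rw [hL, Finset.mem_Icc]
    refine ⟨hl1.two_le, ?_⟩
    rw [Nat.le_sqrt']
    omega
  have hcL : (L.card : ℝ) ≤ Real.sqrt (8 * N) := by
    have h1 : L.card ≤ Nat.sqrt (8 * N) := by
      rw [hL, Nat.card_Icc]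
      omega
    have h2 : ((Nat.sqrt (8 * N) : ℕ) : ℝ) ≤ Real.sqrt ((8 * N : ℕ) : ℝ) :=
      Real.nat_sqrt_le_real_sqrt
    have h3 : ((8 * N : ℕ) : ℝ) = 8 * N := by push_cast; ring
    rw [h3] at h2
    have h4 : (L.card : ℝ) ≤ ((Nat.sqrt (8 * N) : ℕ) : ℝ) := by exact_mod_cast h1
    linarith
  have hB0 : 0 ≤ z * ((H : ℝ) ^ 2 * Real.log (8 * N) / Real.log y + 1) ^ K := by
    have hz0 : 0 ≤ z := by linarith
    positivity
  have hc3 : (S3.card : ℝ) ≤
      Real.sqrt (8 * N) * (z * ((H : ℝ) ^ 2 * Real.log (8 * N) / Real.log y + 1) ^ K) := by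
    have h1 : S3.card ≤ ∑ l ∈ L, (S3.filter (Q l)).card :=
      (Finset.card_le_card hsub).trans Finset.card_biUnion_le
    have h2 : (S3.card : ℝ) ≤ ∑ l ∈ L, ((S3.filter (Q l)).card : ℝ) := by exact_mod_cast h1
    refine h2.trans ((Finset.sum_le_sum hc3l).trans ?_)
    rw [Finset.sum_const, nsmul_eq_mul]
    exact mul_le_mul_of_nonneg_right hcL hB0
  have hsubS : S ⊆ (S.filter P1 ∪ S.filter P2) ∪ S3 := by
    intro n hn
    rw [Finset.mem_union, Finset.mem_union, Finset.mem_filter, Finset.mem_filter, hS3,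
      Finset.mem_filter]
    by_cases a : P1 n
    · exact Or.inl (Or.inl ⟨hn, a⟩)
    · by_cases b : P2 n
      · exact Or.inl (Or.inr ⟨hn, b⟩)
      · exact Or.inr ⟨hn, a, b⟩
  have hcard : S.card ≤ (S.filter P1).card + (S.filter P2).card + S3.card :=
    (Finset.card_le_card hsubS).trans ((Finset.card_union_le _ _).trans
      (Nat.add_le_add_right (Finset.card_union_le _ _) _))
  have hcard' : (S.card : ℝ) ≤ (S.filter P1).card + (S.filter P2).card + S3.card := by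
    exact_mod_cast hcard
  linarith

end AKR
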