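import Mathlib

/-!
# Project AKR (MP_2867b3_nt, architect helper19): Agrawal's conjecture for almost all `n` and all `r`
-/

open Polynomial

namespace AKR

/-- The congruence `(X - 1) ^ n = X ^ n - 1` modulo `(n, X ^ r - 1)`. -/
def Star (n r : ℕ) : Prop := (X ^ r - 1 : (ZMod n)[X]) ∣ (X - 1) ^ n - (X ^ n - 1)

/-- `n` is composite and a Fermat pseudoprime for some prime base `l < √(8 n)`. -/
def Bad (n : ℕ) : Prop :=
  2 ≤ n ∧ ¬ n.Prime ∧ ∃ l : ℕ, l.Prime ∧ l.Coprime n ∧ l ^ 2 < 8 * n ∧ n ∣ l ^ (n - 1) - 1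

end AKR
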