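import Mathlib

/-!
# AKR, module Par: the choice of the parameters (helper19)

PROOF.  `ℓ = log x`, `ℓ₂ = log (log x)`, `L = √(ℓ ℓ₂)`.  `N = ⌊x⌋₊`, `y = ⌈exp L⌉₊`, `H = ⌈exp (0.11 L)⌉₊`, `K = ⌊ℓ / L⌋₊`,
`z = x ^ 0.27`, `σ = 0.45 ℓ₂ / L` (which tends to `0`).  All for large `x`.
* `N ≤ x = exp ℓ < exp (L (K + 1)) ≤ y ^ (K + 1)`.
* First term: `y ≤ 2 exp L`, `y ^ σ ≤ 2 exp (0.45 ℓ₂) = 2 ℓ ^ 0.45`; `log (log y) ≤ ℓ₂` (as `y ≤ x`); so the exponential is
  `exp (O (ℓ ^ 0.45 ℓ₂)) = exp (o (L))`; `z ^ (-σ) = exp (- 0.27 * 0.45 ℓ ℓ₂ / L) = exp (- 0.1215 L)`.  So the term is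
  `≤ x exp (- 0.1 L) / 3`.
* Second term: `≤ x (1 + ℓ) exp (- 0.11 L) ≤ x exp (- 0.1 L) / 3` (`1 + ℓ ≤ exp (2 ℓ₂)`, `ℓ₂ / L → 0`).
* Third term: `H ≤ 2 exp (0.11 L)`, `log y ≥ L ≥ 1`, `log (8 N) ≤ 2 ℓ`, so the bracket is `≤ 9 ℓ exp (0.22 L)`, its `K`-th power is
  `≤ exp ((ℓ / L) (log 9 + ℓ₂ + 0.22 L)) = exp (0.22 ℓ + L + log 9 (ℓ / L)) ≤ exp (0.22 ℓ + 4 L)` (`ℓ / L ≤ L` as `ℓ₂ ≥ 1`);
  `√(8 N) z ≤ 3 x ^ 0.77`; together `≤ 3 x ^ 0.99 exp (4 L) ≤ x exp (- 0.1 L) / 3`, because `L / ℓ → 0`.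
(`L / ℓ = √(ℓ₂ / ℓ)`; use `isLittleO_log_id_atTop`, `Real.isLittleO_log_rpow_atTop` and the like composed with `log`; it may be
convenient to prove everything as `∀ᶠ x in atTop` statements.)
-/

open Filter

namespace AKR

private theorem exp_quad {t : ℝ} (ht : 0 ≤ t) : t ^ 2 / 2 ≤ Real.exp t := by
  have := Real.quadratic_le_exp_of_nonneg ht
  linarith

private theorem two_le_e : (2 : ℝ) ≤ Real.exp 1 := by
  have := Real.add_one_le_exp (1 : ℝ)
  linarith

private theorem third {a b : ℝ} (h : a + 2 ≤ b) : Real.exp a ≤ Real.exp b / 3 := by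
  have h1 : Real.exp (a + 2) ≤ Real.exp b := Real.exp_le_exp.2 h
  have h2 : (3 : ℝ) ≤ Real.exp 2 := by
    have := Real.add_one_le_exp (2 : ℝ)
    linarith
  rw [Real.exp_add] at h1
  have h3 := Real.exp_pos a
  nlinarith

theorem par (C : ℝ) (hC : 0 < C) : ∃ x₀ : ℝ, ∀ x : ℝ, x₀ ≤ x →
    ∃ (y H K : ℕ) (z σ : ℝ), 1 ≤ ⌊x⌋₊ ∧ 3 ≤ y ∧ 1 ≤ H ∧ 1 ≤ z ∧ 0 < σ ∧ σ ≤ 1 / 4 ∧
      ⌊x⌋₊ < y ^ (K + 1) ∧
      (⌊x⌋₊ : ℝ) * z ^ (-σ) * Real.exp (C * (y : ℝ) ^ σ * (1 + Real.log (Real.log y))) +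
        (⌊x⌋₊ : ℝ) * (1 + Real.log (⌊x⌋₊ : ℝ)) / H +
        Real.sqrt (8 * (⌊x⌋₊ : ℝ)) *
          (z * ((H : ℝ) ^ 2 * Real.log (8 * (⌊x⌋₊ : ℝ)) / Real.log y + 1) ^ K) ≤
        x * Real.exp (-(1 / 10) * Real.sqrt (Real.log x * Real.log (Real.log x))) := by
  refine ⟨Real.exp (Real.exp (max 2000000 (160000 * C * Real.exp 1))), fun x hx => ?_⟩
  have hx0 : 0 < x := (Real.exp_pos _).trans_le hx
  obtain ⟨l, rfl⟩ : ∃ l, x = Real.exp l := ⟨Real.log x, (Real.exp_log hx0).symm⟩
  rw [Real.exp_le_exp] at hx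
  have hl0 : 0 < l := (Real.exp_pos _).trans_le hx
  obtain ⟨m, hlm⟩ : ∃ m, l = Real.exp m := ⟨Real.log l, (Real.exp_log hl0).symm⟩
  rw [hlm, Real.exp_le_exp, max_le_iff] at hx
  obtain ⟨hm1, hm2⟩ := hx
  have hlogl : Real.log l = m := by rw [hlm, Real.log_exp]
  rw [Real.log_exp, hlogl]
  have he2 := two_le_e
  have he0 : (0 : ℝ) < Real.exp 1 := Real.exp_pos 1
  -- basic growth facts
  have G2 : C * Real.exp 1 * (1 + m) ≤ 1 / 100 * Real.exp (m / 20) := by
    have h1 := exp_quad (t := m / 20) (by linarith)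
    have h2 : 0 < C * Real.exp 1 := mul_pos hC he0
    have h3 : C * Real.exp 1 * (1 + m) ≤ C * Real.exp 1 * (2 * m) :=
      mul_le_mul_of_nonneg_left (by linarith) h2.le
    have h4 : C * Real.exp 1 * (2 * m) * 80000 ≤ m * m := by nlinarith
    nlinarith
  have G3 : m + 3 ≤ 1 / 100 * Real.exp (m / 2) := by
    have h1 := exp_quad (t := m / 2) (by linarith)
    nlinarith
  have G4 : 1000000 * m ≤ l := by
    have h1 := exp_quad (t := m) (by linarith)
    rw [hlm]
    nlinarith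
  set L : ℝ := Real.sqrt (l * m) with hL
  have hm0 : 0 < m := by linarith
  have hLL : L * L = l * m := Real.mul_self_sqrt (by positivity)
  have hLe : Real.exp (m / 2) ≤ L := by
    rw [hL, Real.exp_half, hlm]
    apply Real.sqrt_le_sqrt
    have := Real.exp_pos m
    nlinarith
  have hL3 : 100 * (m + 3) ≤ L := by linarith
  have hL0 : 0 < L := by linarith
  have hLl : 1000 * L ≤ l := by
    by_contra hcon
    push Not at hcon
    have h1 : l * l < (1000 * L) * (1000 * L) :=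
      mul_self_lt_mul_self hl0.le hcon
    have h2 : l * (1000000 * m) ≤ l * l := mul_le_mul_of_nonneg_left G4 hl0.le
    nlinarith
  have hlL : l / L ≤ L := by
    rw [div_le_iff₀ hL0, hLL]
    nlinarith
  have hlmL : l / L * m = L := by
    rw [div_mul_eq_mul_div, ← hLL, mul_div_assoc, div_self hL0.ne', mul_one]
  -- the numbers
  have hN1 : 1 ≤ ⌊Real.exp l⌋₊ := Nat.le_floor (by
    rw [Nat.cast_one]
    exact Real.one_le_exp hl0.le)
  have hN : (⌊Real.exp l⌋₊ : ℝ) ≤ Real.exp l := Nat.floor_le (Real.exp_pos l).le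
  generalize hNN : ⌊Real.exp l⌋₊ = N at hN1 hN ⊢
  have hN1' : (1 : ℝ) ≤ N := by exact_mod_cast hN1
  have hy1 : Real.exp L ≤ (⌈Real.exp L⌉₊ : ℝ) := Nat.le_ceil _
  have hy2 : (⌈Real.exp L⌉₊ : ℝ) < Real.exp L + 1 := Nat.ceil_lt_add_one (Real.exp_pos L).le
  generalize ⌈Real.exp L⌉₊ = y at hy1 hy2
  have hH1 : Real.exp (11 / 100 * L) ≤ (⌈Real.exp (11 / 100 * L)⌉₊ : ℝ) := Nat.le_ceil _
  have hH2 : (⌈Real.exp (11 / 100 * L)⌉₊ : ℝ) < Real.exp (11 / 100 * L) + 1 :=
    Nat.ceil_lt_add_one (Real.exp_pos _).le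
  generalize ⌈Real.exp (11 / 100 * L)⌉₊ = H at hH1 hH2
  have hK1 : (⌊l / L⌋₊ : ℝ) ≤ l / L := Nat.floor_le (by positivity)
  have hK2 : l / L < (⌊l / L⌋₊ : ℝ) + 1 := Nat.lt_floor_add_one _
  generalize ⌊l / L⌋₊ = K at hK1 hK2
  have hexpL1 : (1 : ℝ) ≤ Real.exp L := Real.one_le_exp hL0.le
  have hy3 : (y : ℝ) ≤ Real.exp (L + 1) := by
    rw [Real.exp_add]
    nlinarith
  have hy0 : (0 : ℝ) < y := (Real.exp_pos L).trans_le hy1
  have hy33 : (3 : ℝ) ≤ y := by
    have := Real.add_one_le_exp L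
    linarith
  have hH0 : (0 : ℝ) < H := (Real.exp_pos _).trans_le hH1
  have hexpH1 : (1 : ℝ) ≤ Real.exp (11 / 100 * L) := Real.one_le_exp (by positivity)
  have hH3 : (H : ℝ) ≤ Real.exp (11 / 100 * L + 1) := by
    rw [Real.exp_add]
    nlinarith
  have hlogy1 : L ≤ Real.log y := by
    rw [Real.le_log_iff_exp_le hy0]
    exact hy1
  have hlogy2 : Real.log y ≤ L + 1 := by
    rw [Real.log_le_iff_le_exp hy0]
    exact hy3
  have hlogy0 : 0 < Real.log y := hL0.trans_le hlogy1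
  have hloglogy : Real.log (Real.log y) ≤ m := by
    rw [Real.log_le_iff_le_exp hlogy0, ← hlm]
    linarith
  have hloglogy0 : 0 ≤ Real.log (Real.log y) := Real.log_nonneg (by linarith)
  have hlogN : Real.log N ≤ l := by
    rw [Real.log_le_iff_le_exp (by linarith)]
    exact hN
  have he3 : (8 : ℝ) ≤ Real.exp 3 := by
    have h1 := exp_quad (t := 3) (by norm_num)
    have h2 : Real.exp 3 = Real.exp 1 * Real.exp 1 * Real.exp 1 := by
      rw [← Real.exp_add, ← Real.exp_add]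
      norm_num
    rw [h2]
    have h3 : (4 : ℝ) ≤ Real.exp 1 * Real.exp 1 := by nlinarith
    nlinarith
  have h8N : 8 * (N : ℝ) ≤ Real.exp (l + 3) := by
    rw [Real.exp_add]
    have := Real.exp_pos l
    nlinarith
  have hlog8N : Real.log (8 * N) ≤ l + 3 := by
    rw [Real.log_le_iff_le_exp (by linarith)]
    exact h8N
  have hlog8N0 : 0 ≤ Real.log (8 * N) := Real.log_nonneg (by linarith)
  set σ : ℝ := 45 / 100 * m / L with hσ
  have hσ0 : 0 < σ := by positivity
  have hσ1 : σ ≤ 1 / 4 := by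
    rw [hσ, div_le_iff₀ hL0]
    linarith
  have hσL : σ * L = 45 / 100 * m := by
    rw [hσ, div_mul_cancel₀ _ hL0.ne']
  have hσl : l * σ = 45 / 100 * L := by
    have : l * σ = 45 / 100 * (l / L * m) := by
      rw [hσ]
      ring
    rw [this, hlmL]
  refine ⟨y, H, K, Real.exp (27 / 100 * l), σ, hN1, by exact_mod_cast hy33, ?_, ?_, hσ0, hσ1,
    ?_, ?_⟩
  · have : (1 : ℝ) ≤ H := hexpH1.trans hH1
    exact_mod_cast this
  · exact Real.one_le_exp (by positivity)
  · have h1 : (N : ℝ) < (y : ℝ) ^ (K + 1) := by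
      calc (N : ℝ) ≤ Real.exp l := hN
        _ < Real.exp (((K + 1 : ℕ) : ℝ) * L) := by
          rw [Real.exp_lt_exp, Nat.cast_add, Nat.cast_one]
          rw [div_lt_iff₀ hL0] at hK2
          exact hK2
        _ = Real.exp L ^ (K + 1) := Real.exp_nat_mul L (K + 1)
        _ ≤ (y : ℝ) ^ (K + 1) := pow_le_pow_left₀ (Real.exp_pos L).le hy1 _
    exact_mod_cast h1
  · have hR : Real.exp l * Real.exp (-(1 / 10) * L) = Real.exp (l - 1 / 10 * L) := by
      rw [← Real.exp_add]
      congr 1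
      ring
    rw [hR]
    -- first term
    have T1 : (N : ℝ) * Real.exp (27 / 100 * l) ^ (-σ) *
        Real.exp (C * (y : ℝ) ^ σ * (1 + Real.log (Real.log y))) ≤
        Real.exp (l - 1 / 10 * L) / 3 := by
      have h1 : Real.exp (27 / 100 * l) ^ (-σ) = Real.exp (-(1215 / 10000) * L) := by
        rw [← Real.exp_mul]
        congr 1
        have : 27 / 100 * l * -σ = -(27 / 100) * (l * σ) := by ring
        rw [this, hσl]
        ring
      have h2 : (y : ℝ) ^ σ ≤ Real.exp (45 / 100 * m + 1) := by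
        calc (y : ℝ) ^ σ ≤ Real.exp (L + 1) ^ σ := Real.rpow_le_rpow hy0.le hy3 hσ0.le
          _ = Real.exp ((L + 1) * σ) := (Real.exp_mul _ _).symm
          _ ≤ Real.exp (45 / 100 * m + 1) := by
            rw [Real.exp_le_exp]
            nlinarith
      have h3 : C * (y : ℝ) ^ σ * (1 + Real.log (Real.log y)) ≤ 1 / 100 * L := by
        calc C * (y : ℝ) ^ σ * (1 + Real.log (Real.log y))
            ≤ C * Real.exp (45 / 100 * m + 1) * (1 + m) := by
              apply mul_le_mul (mul_le_mul_of_nonneg_left h2 hC.le) (by linarith) (by linarith)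
              positivity
          _ = (C * Real.exp 1 * (1 + m)) * Real.exp (45 / 100 * m) := by
            rw [Real.exp_add]
            ring
          _ ≤ (1 / 100 * Real.exp (m / 20)) * Real.exp (45 / 100 * m) :=
            mul_le_mul_of_nonneg_right G2 (Real.exp_pos _).le
          _ = 1 / 100 * Real.exp (m / 2) := by
            rw [mul_assoc, ← Real.exp_add]
            congr 2
            ring
          _ ≤ 1 / 100 * L := by linarith
      calc (N : ℝ) * Real.exp (27 / 100 * l) ^ (-σ) *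
            Real.exp (C * (y : ℝ) ^ σ * (1 + Real.log (Real.log y)))
          ≤ Real.exp l * Real.exp (-(1215 / 10000) * L) * Real.exp (1 / 100 * L) := by
            rw [h1]
            apply mul_le_mul (mul_le_mul_of_nonneg_right hN (Real.exp_pos _).le)
              (Real.exp_le_exp.2 h3) (Real.exp_pos _).le
            positivity
        _ = Real.exp (l + -(1215 / 10000) * L + 1 / 100 * L) := by
          rw [Real.exp_add, Real.exp_add]
        _ ≤ Real.exp (l - 1 / 10 * L) / 3 := third (by linarith)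
    -- second term
    have T2 : (N : ℝ) * (1 + Real.log N) / H ≤ Real.exp (l - 1 / 10 * L) / 3 := by
      have h1 : 1 + Real.log N ≤ Real.exp (m + 1) := by
        rw [Real.exp_add, ← hlm]
        nlinarith
      have h0 : 0 ≤ Real.log N := Real.log_nonneg hN1'
      calc (N : ℝ) * (1 + Real.log N) / H
          ≤ Real.exp l * Real.exp (m + 1) / Real.exp (11 / 100 * L) := by
            apply div_le_div₀ (by positivity) _ (Real.exp_pos _) hH1
            exact mul_le_mul hN h1 (by linarith) (Real.exp_pos _).le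
        _ = Real.exp (l + (m + 1) - 11 / 100 * L) := by
          rw [Real.exp_sub, Real.exp_add l]
        _ ≤ Real.exp (l - 1 / 10 * L) / 3 := third (by linarith)
    -- third term
    have T3 : Real.sqrt (8 * (N : ℝ)) * (Real.exp (27 / 100 * l) *
        ((H : ℝ) ^ 2 * Real.log (8 * (N : ℝ)) / Real.log y + 1) ^ K) ≤
        Real.exp (l - 1 / 10 * L) / 3 := by
      have h1 : Real.sqrt (8 * (N : ℝ)) ≤ Real.exp ((l + 3) / 2) := by
        rw [Real.exp_half]
        exact Real.sqrt_le_sqrt h8N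
      have hB0 : 0 ≤ (H : ℝ) ^ 2 * Real.log (8 * (N : ℝ)) / Real.log y := by positivity
      have h2 : (H : ℝ) ^ 2 * Real.log (8 * (N : ℝ)) / Real.log y ≤
          Real.exp (3 + m + 22 / 100 * L) := by
        have h3 : (H : ℝ) ^ 2 ≤ Real.exp (2 + 22 / 100 * L) := by
          calc (H : ℝ) ^ 2 ≤ Real.exp (11 / 100 * L + 1) ^ 2 :=
                pow_le_pow_left₀ hH0.le hH3 2
            _ = Real.exp (2 + 22 / 100 * L) := by
              rw [← Real.exp_nat_mul]
              congr 1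
              push_cast
              ring
        have h4 : Real.log (8 * (N : ℝ)) ≤ Real.exp (m + 1) := by
          rw [Real.exp_add, ← hlm]
          nlinarith
        calc (H : ℝ) ^ 2 * Real.log (8 * (N : ℝ)) / Real.log y
            ≤ (H : ℝ) ^ 2 * Real.log (8 * (N : ℝ)) := by
              apply div_le_self (by positivity)
              linarith
          _ ≤ Real.exp (2 + 22 / 100 * L) * Real.exp (m + 1) :=
            mul_le_mul h3 h4 hlog8N0 (Real.exp_pos _).le
          _ = Real.exp (3 + m + 22 / 100 * L) := by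
            rw [← Real.exp_add]
            congr 1
            ring
      have h5 : (H : ℝ) ^ 2 * Real.log (8 * (N : ℝ)) / Real.log y + 1 ≤
          Real.exp (4 + m + 22 / 100 * L) := by
        have h6 : Real.exp (4 + m + 22 / 100 * L) =
            Real.exp 1 * Real.exp (3 + m + 22 / 100 * L) := by
          rw [← Real.exp_add]
          congr 1
          ring
        rw [h6]
        have h7 : 1 ≤ Real.exp (3 + m + 22 / 100 * L) := Real.one_le_exp (by positivity)
        nlinarith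
      have h8 : ((H : ℝ) ^ 2 * Real.log (8 * (N : ℝ)) / Real.log y + 1) ^ K ≤
          Real.exp (5 * L + 22 / 100 * l) := by
        calc ((H : ℝ) ^ 2 * Real.log (8 * (N : ℝ)) / Real.log y + 1) ^ K
            ≤ Real.exp (4 + m + 22 / 100 * L) ^ K :=
              pow_le_pow_left₀ (by linarith) h5 K
          _ = Real.exp ((K : ℝ) * (4 + m + 22 / 100 * L)) := (Real.exp_nat_mul _ _).symm
          _ ≤ Real.exp (5 * L + 22 / 100 * l) := by
            rw [Real.exp_le_exp]
            calc (K : ℝ) * (4 + m + 22 / 100 * L)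
                ≤ l / L * (4 + m + 22 / 100 * L) :=
                  mul_le_mul_of_nonneg_right hK1 (by positivity)
              _ = 4 * (l / L) + l / L * m + 22 / 100 * (l / L * L) := by ring
              _ = 4 * (l / L) + L + 22 / 100 * l := by
                rw [hlmL, div_mul_cancel₀ _ hL0.ne']
              _ ≤ 5 * L + 22 / 100 * l := by linarith
      calc Real.sqrt (8 * (N : ℝ)) * (Real.exp (27 / 100 * l) *
            ((H : ℝ) ^ 2 * Real.log (8 * (N : ℝ)) / Real.log y + 1) ^ K)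
          ≤ Real.exp ((l + 3) / 2) * (Real.exp (27 / 100 * l) *
            Real.exp (5 * L + 22 / 100 * l)) := by
            apply mul_le_mul h1 _ (by positivity) (Real.exp_pos _).le
            exact mul_le_mul_of_nonneg_left h8 (Real.exp_pos _).le
        _ = Real.exp ((l + 3) / 2 + (27 / 100 * l + (5 * L + 22 / 100 * l))) := by
          rw [← Real.exp_add, ← Real.exp_add]
        _ ≤ Real.exp (l - 1 / 10 * L) / 3 := third (by linarith)
    linarith

end AKR
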