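import Pool.Agent.AKR.Red
import Pool.Agent.AKR.Comb
import Pool.Agent.AKR.Par

/-!
# AKR, module Final (helper19)
-/

open Polynomial

namespace AKR

theorem final : ∃ x₀ : ℝ, ∀ x : ℝ, x₀ ≤ x → ∀ S : Finset ℕ,
    (∀ n ∈ S, 0 < n ∧ (n : ℝ) ≤ x ∧ ∃ r : ℕ, 0 < r ∧ n.Coprime r ∧
      ((X ^ r - 1 : (ZMod n)[X]) ∣ (X - 1) ^ n - (X ^ n - 1)) ∧
      ¬ (n.Prime ∨ Nat.ModEq r (n ^ 2) 1)) →
    (S.card : ℝ) ≤ x * Real.exp (-(1 / 10) * Real.sqrt (Real.log x * Real.log (Real.log x))) := by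
  obtain ⟨C, hC, hcount⟩ := bad_count
  obtain ⟨x₀, hx₀⟩ := par C hC
  refine ⟨x₀, fun x hx S hS => ?_⟩
  obtain ⟨y, H, K, z, σ, hN, hy, hH, hz, hσ0, hσ, hK, hle⟩ := hx₀ x hx
  refine (hcount ⌊x⌋₊ y H K z σ hN hy hH hz hσ0 hσ hK S ?_).trans hle
  intro n hn
  obtain ⟨hn0, hnx, r, hr, hc, hst, hno⟩ := hS n hn
  exact ⟨Nat.le_floor hnx, bad_of_counter hn0 hr hc hst hno⟩

end AKR
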