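import Pool.Agent.AKR.Nrm
import Pool.Agent.Helper49.Agr.Global

/-!
# AKR, module Red: a counterexample is a bad number (helper19)

PROOF.  `n ≠ 1` because `1 ^ 2 ≡ 1`; so `2 ≤ n`, and `n` is not prime.  `r ≠ 1` because everything is congruent modulo `1`; so `r` has
a prime factor `l`, `l ≤ r`, prime to `n`.  If `8 n ≤ n.minFac r ^ 2` then `Pool.Agent.Helper49.Agr.range_thm` gives
`n.Prime ∨ n ^ 2 ≡ 1`, a contradiction; so `2 l ^ 2 ≤ n.minFac r ^ 2 < 8 n` (`2 ≤ n.minFac`), in particular `l ^ 2 < 8 n`.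
`X ^ l - 1 ∣ X ^ r - 1` (`sub_dvd_pow_sub_pow (X ^ l) 1 (r / l)`), so `Star n l`, and `fermat_of_star`.
-/

open Polynomial

namespace AKR

theorem bad_of_counter {n r : ℕ} (hn : 0 < n) (hr : 0 < r) (hc : n.Coprime r) (h : Star n r)
    (h' : ¬ (n.Prime ∨ Nat.ModEq r (n ^ 2) 1)) : Bad n := by
  obtain ⟨hp, hm⟩ := not_or.1 h'
  have hn1 : n ≠ 1 := by
    rintro rfl
    exact hm (by rw [one_pow])
  have hr1 : r ≠ 1 := by
    rintro rfl
    exact hm (Nat.modEq_one)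
  have hlp := Nat.minFac_prime hr1
  have hcl : n.Coprime r.minFac := hc.coprime_dvd_right (Nat.minFac_dvd r)
  have h8 : n.minFac * r ^ 2 < 8 * n := by
    by_contra hcon
    exact h' (Pool.Agent.Helper49.Agr.range_thm hn hr hc h (not_lt.1 hcon))
  have h2 : 2 ≤ n.minFac := (Nat.minFac_prime hn1).two_le
  have hle : r.minFac ≤ r := Nat.minFac_le hr
  have h3 : r.minFac ^ 2 ≤ r ^ 2 := Nat.pow_le_pow_left hle 2
  have hst : Star n r.minFac := by
    refine dvd_trans ?_ h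
    obtain ⟨k, hk⟩ := Nat.minFac_dvd r
    have h4 := sub_dvd_pow_sub_pow (X ^ r.minFac : (ZMod n)[X]) 1 k
    rwa [one_pow, ← pow_mul, ← hk] at h4
  refine ⟨by omega, hp, r.minFac, hlp, hcl.symm, ?_, fermat_of_star hn hlp hcl hst⟩
  nlinarith

end AKR
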