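import Pool.Agent.AKR.Defs
import Pool.Agent.RG.Mer

/-!
# AKR, module Smo: few numbers have a large smooth divisor (helper19)

PROOF (Rankin).  The count is at most `∑_{s smooth, z < s} N / s ≤ ∑_{s smooth} (s / z) ^ σ N / s = N z ^ (-σ) ∑_{s smooth} s ^ (σ - 1)`
(for each `n` choose `s`; the multiples of `s` up to `N` are at most `N / s`; only finitely many `s ≤ N` matter).  By
`EulerProduct.summable_and_hasSum_smoothNumbers_prod_primesBelow_geometric` (or `…prod_primesBelow_tsum`) for the completely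
multiplicative `f s = s ^ (σ - 1)`: `∑_{s smooth} s ^ (σ - 1) = ∏_{p ≤ y} (1 - p ^ (σ - 1))⁻¹`.  As `p ^ (σ - 1) ≤ 2 ^ (- 3 / 4) ≤ 0.6`,
`(1 - t)⁻¹ ≤ exp (3 t)` for `0 ≤ t ≤ 0.6` (`1 / (1 - t) = 1 + t / (1 - t) ≤ exp (t / (1 - t)) ≤ exp (2.5 t)`), so the product is at
most `exp (3 ∑_{p ≤ y} p ^ (σ - 1)) ≤ exp (3 y ^ σ ∑_{p ≤ y} 1 / p)`.  `∑_{p ≤ y} 1 / p ≤ 1 / 2 + log (log y) - log (log 2) + C / log 2`
(`RG.Mer`'s `recip_bounds` with `u = 2`, `v = y`; look up `prm` in `Pool/Agent/RG/Defs.lean`) `≤ C' (1 + log (log y))` for `y ≥ 3`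
(`log (log 3) > 0`).
-/

namespace AKR

open Finset Real

private noncomputable def fpow (σ : ℝ) (hσ : σ ≤ 1 / 4) : ℕ →* ℝ where
  toFun n := (n : ℝ) ^ (σ - 1)
  map_one' := by simp
  map_mul' a b := by
    push_cast
    exact Real.mul_rpow (Nat.cast_nonneg a) (Nat.cast_nonneg b)

private theorem fpow_apply (σ : ℝ) (hσ : σ ≤ 1 / 4) (n : ℕ) : fpow σ hσ n = (n : ℝ) ^ (σ - 1) := rfl

private theorem pow_small {σ : ℝ} (hσ : σ ≤ 1 / 4) {p : ℕ} (hp : 2 ≤ p) :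
    (p : ℝ) ^ (σ - 1) ≤ 3 / 5 := by
  have hp2 : (2 : ℝ) ≤ p := by exact_mod_cast hp
  have h1 : (p : ℝ) ^ (σ - 1) ≤ (p : ℝ) ^ (-(3 / 4 : ℝ)) :=
    Real.rpow_le_rpow_of_exponent_le (by linarith) (by linarith)
  have h2 : (p : ℝ) ^ (-(3 / 4 : ℝ)) ≤ (2 : ℝ) ^ (-(3 / 4 : ℝ)) :=
    Real.rpow_le_rpow_of_nonpos (by norm_num) hp2 (by norm_num)
  have h3 : (2 : ℝ) ^ (-(3 / 4 : ℝ)) ≤ 3 / 5 := by
    rw [Real.rpow_neg (by norm_num)]
    have h4 : (5 / 3 : ℝ) ≤ (2 : ℝ) ^ (3 / 4 : ℝ) := by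
      by_contra hc
      push Not at hc
      have h6 : ((2 : ℝ) ^ (3 / 4 : ℝ)) ^ 4 < (5 / 3 : ℝ) ^ 4 :=
        pow_lt_pow_left₀ hc (by positivity) (by norm_num)
      have h7 : ((2 : ℝ) ^ (3 / 4 : ℝ)) ^ 4 = 8 := by
        rw [← Real.rpow_natCast, ← Real.rpow_mul (by norm_num)]
        norm_num
      rw [h7] at h6
      norm_num at h6
    have h5 := inv_anti₀ (by norm_num) h4
    linarith
  linarith

private theorem one_sub_inv_le {t : ℝ} (h0 : 0 ≤ t) (h1 : t ≤ 3 / 5) :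
    (1 - t)⁻¹ ≤ Real.exp (3 * t) := by
  have h2 : (1 - t)⁻¹ ≤ 3 * t + 1 := by
    rw [inv_le_iff_one_le_mul₀ (by linarith)]
    nlinarith
  exact h2.trans (Real.add_one_le_exp _)

private theorem sum_recip : ∃ C : ℝ, 0 < C ∧ ∀ y : ℕ, 3 ≤ y →
    ∑ p ∈ (y + 1).primesBelow, 1 / (p : ℝ) ≤ C * (1 + Real.log (Real.log y)) := by
  obtain ⟨C, hC, hrec⟩ := Pool.Agent.RG.recip_bounds
  refine ⟨|1 / 2 - Real.log (Real.log 2) + C / Real.log 2| + 1, by positivity, ?_⟩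
  intro y hy
  have hy3 : (3 : ℝ) ≤ y := by exact_mod_cast hy
  have hset : (y + 1).primesBelow = insert 2 (Pool.Agent.RG.prm 2 y) := by
    ext p
    rw [Nat.mem_primesBelow, mem_insert, Pool.Agent.RG.mem_prm]
    constructor
    · rintro ⟨h1, h2⟩
      have h3 := h2.two_le
      rcases h3.eq_or_lt with h4 | h4
      · exact Or.inl h4.symm
      · exact Or.inr ⟨⟨h4, by omega⟩, h2⟩
    · rintro (rfl | ⟨⟨h1, h2⟩, h3⟩)
      · exact ⟨by omega, Nat.prime_two⟩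
      · exact ⟨by omega, h3⟩
  rw [hset, sum_insert (by rw [Pool.Agent.RG.mem_prm]; omega)]
  have h1 := (abs_le.1 (hrec 2 y le_rfl (by omega))).2
  push_cast at h1 ⊢
  have h2 : 1 ≤ Real.log y := by
    rw [Real.le_log_iff_exp_le (by linarith)]
    have := Real.exp_one_lt_d9
    linarith
  have h3 : 0 ≤ Real.log (Real.log y) := Real.log_nonneg h2
  have h4 := le_abs_self (1 / 2 - Real.log (Real.log 2) + C / Real.log 2)
  have h5 := abs_nonneg (1 / 2 - Real.log (Real.log 2) + C / Real.log 2)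
  set A := |1 / 2 - Real.log (Real.log 2) + C / Real.log 2|
  nlinarith [mul_nonneg h5 h3]

theorem smooth_count : ∃ C : ℝ, 0 < C ∧ ∀ (N y : ℕ) (z σ : ℝ), 3 ≤ y → 0 < z → 0 < σ → σ ≤ 1 / 4 →
    ∀ S : Finset ℕ, (∀ n ∈ S, 1 ≤ n ∧ n ≤ N ∧
      ∃ s : ℕ, s ∣ n ∧ s ∈ Nat.smoothNumbers (y + 1) ∧ z < (s : ℝ)) →
    (S.card : ℝ) ≤ N * z ^ (-σ) * Real.exp (C * (y : ℝ) ^ σ * (1 + Real.log (Real.log y))) := by
  classical
  obtain ⟨C, hC, hrec⟩ := sum_recip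
  refine ⟨3 * C, by positivity, ?_⟩
  intro N y z σ hy hz hσ0 hσ S hS
  have hy3 : (3 : ℝ) ≤ y := by exact_mod_cast hy
  -- the Euler product
  obtain ⟨-, hsum⟩ := EulerProduct.summable_and_hasSum_smoothNumbers_prod_primesBelow_geometric
    (f := fpow σ hσ) (fun {p} hp => by
      rw [fpow_apply, Real.norm_of_nonneg (by positivity)]
      exact (pow_small hσ hp.two_le).trans_lt (by norm_num)) (y + 1)
  have hsum2 : HasSum ((Nat.smoothNumbers (y + 1)).indicator (fun s : ℕ => (s : ℝ) ^ (σ - 1)))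
      (∏ p ∈ (y + 1).primesBelow, (1 - fpow σ hσ p)⁻¹) :=
    hasSum_subtype_iff_indicator.1 hsum
  set P := ∏ p ∈ (y + 1).primesBelow, (1 - fpow σ hσ p)⁻¹ with hP
  have hPle : P ≤ Real.exp (3 * C * (y : ℝ) ^ σ * (1 + Real.log (Real.log y))) := by
    have h1 : P ≤ ∏ p ∈ (y + 1).primesBelow, Real.exp (3 * fpow σ hσ p) := by
      refine prod_le_prod ?_ ?_
      · intro p hp
        have h2 := pow_small hσ (Nat.prime_of_mem_primesBelow hp).two_le
        rw [fpow_apply]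
        exact inv_nonneg.2 (by linarith)
      · intro p hp
        have h2 := pow_small hσ (Nat.prime_of_mem_primesBelow hp).two_le
        rw [fpow_apply]
        exact one_sub_inv_le (by positivity) h2
    rw [← Real.exp_sum, ← mul_sum] at h1
    refine h1.trans (Real.exp_le_exp.2 ?_)
    have h3 : ∑ p ∈ (y + 1).primesBelow, fpow σ hσ p ≤
        (y : ℝ) ^ σ * ∑ p ∈ (y + 1).primesBelow, 1 / (p : ℝ) := by
      rw [mul_sum]
      refine sum_le_sum ?_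
      intro p hp
      have hp0 : (0 : ℝ) < p := by exact_mod_cast (Nat.prime_of_mem_primesBelow hp).pos
      have hpy : (p : ℝ) ≤ y := by exact_mod_cast Nat.lt_succ_iff.1 (Nat.lt_of_mem_primesBelow hp)
      rw [fpow_apply, Real.rpow_sub hp0, Real.rpow_one, mul_one_div]
      exact div_le_div_of_nonneg_right (Real.rpow_le_rpow hp0.le hpy hσ0.le) hp0.le
    have h4 := mul_le_mul_of_nonneg_left (hrec y hy) (show 0 ≤ (y : ℝ) ^ σ by positivity)
    nlinarith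
  -- the count
  let T : Finset ℕ := (Icc 1 N).filter (fun s => s ∈ Nat.smoothNumbers (y + 1) ∧ z < (s : ℝ))
  have hsub : S ⊆ T.biUnion (fun s => (Ioc 0 N).filter (fun n => s ∣ n)) := by
    intro n hn
    obtain ⟨h1, h2, s, h3, h4, h5⟩ := hS n hn
    rw [mem_biUnion]
    have hs0 : 0 < s := Nat.pos_of_ne_zero (Nat.ne_zero_of_mem_smoothNumbers h4)
    exact ⟨s, mem_filter.2 ⟨mem_Icc.2 ⟨hs0, (Nat.le_of_dvd h1 h3).trans h2⟩, h4, h5⟩,
      mem_filter.2 ⟨mem_Ioc.2 ⟨h1, h2⟩, h3⟩⟩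
  have hc1 : S.card ≤ ∑ s ∈ T, N / s := by
    refine (card_le_card hsub).trans (card_biUnion_le.trans (sum_le_sum ?_))
    intro s _
    rw [Nat.Ioc_filter_dvd_card_eq_div]
  have hc2 : (S.card : ℝ) ≤ ∑ s ∈ T, N * z ^ (-σ) * (s : ℝ) ^ (σ - 1) := by
    refine (Nat.cast_le.2 hc1).trans ?_
    rw [Nat.cast_sum]
    refine sum_le_sum ?_
    intro s hs
    rw [mem_filter, mem_Icc] at hs
    obtain ⟨⟨hs1, hs2⟩, hs3, hs4⟩ := hs
    have hs0 : (0 : ℝ) < s := by exact_mod_cast hs1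
    refine Nat.cast_div_le.trans ?_
    have h1 : 1 ≤ (s / z : ℝ) ^ σ := Real.one_le_rpow (by rw [le_div_iff₀ hz]; linarith) hσ0.le
    have h2 : (s / z : ℝ) ^ σ = z ^ (-σ) * (s : ℝ) ^ (σ - 1) * s := by
      rw [Real.div_rpow hs0.le hz.le, Real.rpow_neg hz.le, Real.rpow_sub hs0, Real.rpow_one]
      field_simp
    rw [h2] at h1
    rw [div_le_iff₀ hs0]
    have hN : (0 : ℝ) ≤ N := Nat.cast_nonneg N
    nlinarith [mul_le_mul_of_nonneg_left h1 hN]
  have hc3 : ∑ s ∈ T, (s : ℝ) ^ (σ - 1) ≤ P := by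
    have h1 := sum_le_hasSum T (fun s _ => Set.indicator_nonneg (fun s _ => by positivity) s) hsum2
    refine le_trans (le_of_eq ?_) h1
    refine sum_congr rfl ?_
    intro s hs
    rw [Set.indicator_of_mem (mem_filter.1 hs).2.1]
  rw [← mul_sum] at hc2
  refine hc2.trans ?_
  refine mul_le_mul_of_nonneg_left (hc3.trans hPle) (by positivity)

end AKR
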